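import Pool.Agent.helper79.SX.Spec

/-!
Project sx (MP_5628fe_nt), statement CHA: numerical bounds for the constant of Chebyshev.
-/

set_option autoImplicit false

namespace Pool.Agent.SX

theorem CHA_log {a : ℝ} (ha : 0 < a) (m n : ℕ) :
    n * Real.log 2 + (1 - 2 ^ n / a ^ m) ≤ m * Real.log a ∧
    m * Real.log a ≤ n * Real.log 2 + (a ^ m / 2 ^ n - 1) := by
  have h1 : Real.log (a ^ m / 2 ^ n) = m * Real.log a - n * Real.log 2 := by
    rw [Real.log_div (by positivity) (by positivity), Real.log_pow, Real.log_pow]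
  have hp : (0 : ℝ) < a ^ m / 2 ^ n := by positivity
  have h2 := Real.log_le_sub_one_of_pos hp
  have h3 := Real.one_sub_inv_le_log_of_pos hp
  rw [inv_div] at h3
  rw [h1] at h2 h3
  constructor <;> linarith

theorem CHA : CHA_stmt := by
  have h2 := Real.log_two_gt_d9
  have h2' := Real.log_two_lt_d9
  have h3 := CHA_log (show (0 : ℝ) < 3 by norm_num) 12 19
  have h5 := CHA_log (show (0 : ℝ) < 5 by norm_num) 28 65
  norm_num at h3 h5
  obtain ⟨h3a, h3b⟩ := h3
  obtain ⟨h5a, h5b⟩ := h5
  constructor <;> linarith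

end Pool.Agent.SX
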